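import Mathlib
import Pool.Agent.Work.MP_db9399_co.Defs
import Pool.Agent.Work.MP_db9399_all.Interface
import Pool.Agent.Work.MP_db9399_lin.Interface
import Pool.Agent.Work.MP_db9399_qr.Interface
import Pool.Agent.Work.MP_db9399_px.Interface

/-!
# MP_db9399, THEOREM EXP: Q1 for expanders, `Δ + 2` colours (owner helper38)

Definitions and the exact statement `Stmt_X` of every block. See `BLUEPRINT.md`.
The number of cells is `2 * m + 1`, the number of subcells is `2 * r + 1`.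
-/

set_option autoImplicit false

namespace Pool.Agent.Work.MP_db9399_exp

open Finset Classical
open Pool.Agent.Work.MP_db9399_all (nb mis)
open Pool.Agent.Work.MP_db9399_qr (cov PEC ins sd PMat W0 imb ZQ Good)
open Pool.Agent.Work.MP_db9399_px (BE NR)
open _root_.MP_db9399_co

universe u

section defs
variable {V : Type u} [Fintype V]

/-- functional inequality between `C` and `D`; `q` is the typical degree -/
def FI (G : SimpleGraph V) (q g : ℝ) (C D : Finset V) : Prop :=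
  ∀ A B : Finset V, A ⊆ C → B ⊆ D → 2 * A.card ≤ C.card + 2 →
    g * q * A.card ≤ (∑ a ∈ A, ((nb G a ∩ (D \ B)).card : ℝ)) + q / 2 * ((B.card : ℝ) - A.card)

/-- the vertices outside `U` in the atoms of `P` -/
noncomputable def cls {T : Type} (U : Finset V) (π : V → T) (P : Finset T) : Finset V :=
  univ.filter (fun v => v ∉ U ∧ π v ∈ P)

end defs

/-! ## General blocks -/

/-- REG: disjoint perfect matchings in a bipartite graph (Ore, Koenig). -/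
def Stmt_REG : Prop :=
  ∀ (α β : Type u) [Fintype α] [Fintype β] (Rl : α → β → Prop) (D : ℕ),
    Fintype.card α = Fintype.card β →
    (∀ (A : Finset α) (B : Finset β), D * A.card ≤
      (univ.filter (fun e : α × β => e.1 ∈ A ∧ e.2 ∉ B ∧ Rl e.1 e.2)).card + D * B.card) →
    ∃ M : Fin D → α ≃ β, (∀ i x, Rl x (M i x)) ∧ ∀ i j, i ≠ j → ∀ x, M i x ≠ M j x

/-- REGX (from REG): disjoint almost perfect matchings between two sets of almost equal size. -/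
def Stmt_REGX : Prop :=
  ∀ {V : Type u} [Fintype V] (G : SimpleGraph V) (q g η σ : ℝ) (D : ℕ) (A B : Finset V),
    0 < q → 0 < g → g ≤ 1 → 0 < η → η ≤ 1 → 0 ≤ σ → 4 * σ ≤ g * η → (D : ℝ) ≤ (1 - η) * q →
    Disjoint A B → A.card ≤ B.card → B.card ≤ A.card + 1 → FI G q g A B → FI G q g B A →
    (∀ v ∈ A, |((nb G v ∩ B).card : ℝ) - q| ≤ σ * q) →
    (∀ v ∈ B, |((nb G v ∩ A).card : ℝ) - q| ≤ σ * q) →
    ∃ M : Fin D → V → V → Prop,
      (∀ i x y, M i x y → x ∈ A ∧ y ∈ B ∧ G.Adj x y) ∧ (∀ i, ∀ x ∈ A, ∃ y, M i x y) ∧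
      (∀ i x y y', M i x y → M i x y' → y = y') ∧ (∀ i x x' y, M i x y → M i x' y → x = x') ∧
      (∀ i j x y, M i x y → M j x y → i = j) ∧
      (∀ i, (B.filter (fun y => ∀ x, ¬ M i x y)).card ≤ 1) ∧
      ∀ y ∈ B, (univ.filter (fun i => ∀ x, ¬ M i x y)).card ≤ 1

/-- HALLX: perfect matchings with exceptional vertices (`P1`, `Q1`). -/
def Stmt_HALLX : Prop :=
  ∀ {V : Type u} [Fintype V] (G : SimpleGraph V) (q g z : ℝ) (C D P0 P1 Q0 Q1 : Finset V)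
    (Rl : V → V → Prop), 0 < q → 0 < g → g ≤ 1 → 0 < z → FI G q g C D → FI G q g D C →
    (D.card : ℝ) ≤ (1 + g / 2) * C.card → (C.card : ℝ) ≤ (1 + g / 2) * D.card →
    P0 ⊆ C → Q0 ⊆ D → Disjoint P0 P1 → Disjoint Q0 Q1 →
    (P0 ∪ P1).card = (Q0 ∪ Q1).card →
    (∀ x ∈ P0, (((nb G x ∩ D).filter (fun y => ¬ (y ∈ Q0 ∧ Rl x y))).card : ℝ) ≤ g / 2 * q) →
    (∀ y ∈ Q0, (((nb G y ∩ C).filter (fun x => ¬ (x ∈ P0 ∧ Rl x y))).card : ℝ) ≤ g / 2 * q) →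
    (∀ x ∈ P1, z ≤ ((Q0.filter (fun y => Rl x y)).card : ℝ)) →
    (∀ y ∈ Q0, ((P1.filter (fun x => Rl x y)).card : ℝ) ≤ g / 2 * z) →
    (∀ y ∈ Q1, z ≤ ((P0.filter (fun x => Rl x y)).card : ℝ)) →
    (∀ x ∈ P0, ((Q1.filter (fun y => Rl x y)).card : ℝ) ≤ g / 2 * z) →
    ∃ M : Finset (V × V), (∀ e ∈ M, Rl e.1 e.2) ∧ PMat M (P0 ∪ P1) (Q0 ∪ Q1)

/-- TGT: prescribed parities, given sum. -/
def Stmt_TGT : Prop :=
  ∀ (C : Type) (S : Finset C) (x : C → ℤ) (T : ℤ), -(S.card : ℤ) ≤ T → T ≤ 0 →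
    ∃ e : C → ℤ, (∀ b ∈ S, -2 ≤ e b ∧ e b ≤ 1 ∧ (e b - x b) % 2 = 0) ∧
      |(∑ b ∈ S, e b) - T| ≤ 1 ∧ (∑ b ∈ S, max (e b) 0) ≤ S.card ∧
      (∑ b ∈ S, max (-(e b)) 0) ≤ S.card + 1

/-- POOLX: greedy colouring of the dropped edges, in pairs (as POOL of MP_db9399_qr, arbitrary
finite set `T` of cells, no forbidden colours). -/
def Stmt_POOLX : Prop :=
  ∀ {V : Type u} [Fintype V] (T : Type) [Fintype T] (R : SimpleGraph V) (side : V → Bool)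
    (cell : V → T) (D m : ℕ) (C : Type) (Pe : Finset C) (ty : C → T × T × T × T),
    (∀ v w, R.Adj v w → side v = side w) → (∀ v, (nb R v).card ≤ D) →
    (∀ τ, m ≤ (Pe.filter (fun b => ty b = τ)).card) → 4 * D + 1 ≤ m →
    ∃ t : V → V → C, PEC R t ∧ (∀ v w, R.Adj v w → t v w ∈ Pe ∧
      (side v = true → cell v = (ty (t v w)).1 ∨ cell v = (ty (t v w)).2.1) ∧
      (side v = false → cell v = (ty (t v w)).2.2.1 ∨ cell v = (ty (t v w)).2.2.2)) ∧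
      (∑ b ∈ Pe, |((cov R t b ∩ sd side true).card : ℤ) - ((cov R t b ∩ sd side false).card : ℤ)|
        ≤ |(∑ v ∈ sd side true, ((nb R v).card : ℤ)) - ∑ v ∈ sd side false, ((nb R v).card : ℤ)|)

/-- SPV (from STEP, CNT of MP_db9399_all): locally sparse graphs need fewer colours. -/
def Stmt_SPV : Prop :=
  ∀ θ : ℝ, 0 < θ → ∃ (κ : ℝ) (Δ0 : ℕ), 0 < κ ∧ κ ≤ 1 ∧
    ∀ {V : Type u} [Fintype V] (G : SimpleGraph V) (Δ : ℕ) (C : Type) (P : Finset C)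
      (Fb : V → Finset C), Δ0 ≤ Δ → (∀ v, (nb G v).card ≤ Δ) →
      (∀ v, θ * (Δ : ℝ) ^ 2 ≤ ((mis G (nb G v)).card : ℝ)) → (∀ v, (Fb v).card ≤ 4) →
      (1 - κ) * Δ ≤ (P.card : ℝ) →
      ∃ c : V → C, (∀ v, c v ∈ P ∧ c v ∉ Fb v) ∧ ∀ v w, G.Adj v w → c v ≠ c w

/-- UCOL (from LLLI of MP_db9399_all, Koenig): random colouring of the edges of `R` at `U` from
lists, such that no colour is concentrated. -/
def Stmt_UCOL : Prop :=
  ∀ c δ : ℝ, 0 < c → 0 < δ → ∃ d0 : ℕ, ∀ {V : Type u} [Fintype V] (G R : SimpleGraph V)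
    (d D k : ℕ) (U : Finset V) (Ga : Finset (Fin k)) (Γ : Type) (grp : V → V → Γ)
    (Al : V → V → Finset (Fin k)), 0 < k → d0 ≤ d → c * d ≤ (D : ℝ) → D ≤ d → Ga.card ≤ d →
    (∀ v, (nb G v).card ≤ d) → R ≤ G → (∀ v, (univ.filter (fun u => u ∈ U ∧ G.Adj v u)).card ≤ 2) →
    (∀ u ∈ U, ∀ γ, ((nb R u).filter (fun w => grp u w = γ)).card ≤ D) →
    (∀ u ∈ U, ∀ w ∈ nb R u, Al u w ⊆ Ga ∧ D ≤ (Al u w).card) →
    (∀ u ∈ U, ∀ w ∈ nb R u, ∀ w' ∈ nb R u, grp u w ≠ grp u w' → Disjoint (Al u w) (Al u w')) →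
    ∃ t : V → V → Fin k, (∀ u ∈ U, ∀ w ∈ nb R u, t u w ∈ Al u w) ∧
      (∀ u ∈ U, Set.InjOn (t u) (nb R u : Set V)) ∧
      ∀ y, ∀ b ∈ Ga, (((nb G y).filter (fun w => ∃ u ∈ U, R.Adj u w ∧ t u w = b)).card : ℝ) ≤
        δ * d

/-- PARTXW (from PX1 of MP_db9399_px, blocks inside `W`, every vertex outside `W` is a block):
partition of `W` into atoms `(side, t)`. -/
def Stmt_PARTXW : Prop :=
  ∀ (T : Type) [Fintype T] [Nonempty T] (γ δ : ℝ), 0 < γ → γ ≤ 1 → 0 < δ →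
    ∃ (ε : ℝ) (d0 : ℕ), 0 < ε ∧ ∀ {V : Type u} [Fintype V] (G : SimpleGraph V) (d : ℕ)
      (U : Finset V), d0 ≤ d → (2 + γ) * d ≤ (Fintype.card V : ℝ) → NR G d ε → BE G d γ →
      (∀ v, (nb G v ∩ U).card ≤ 3) →
      ∃ (π : V → Bool × T) (N p : ℕ), p ≤ 1 ∧
        (∀ a, N ≤ (cls U π {a}).card ∧ (cls U π {a}).card ≤ N + 1) ∧
        (∀ t, (cls U π {(false, t)}).card ≤ (cls U π {(true, t)}).card) ∧
        (∑ t, (cls U π {(true, t)}).card = ∑ t, (cls U π {(false, t)}).card + p) ∧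
        (∀ v a, |((nb G v ∩ cls U π {a}).card : ℝ) - (d : ℝ) / (2 * Fintype.card T)| ≤ δ * d) ∧
        |(∑ v ∈ univ.filter (fun v => v ∉ U ∧ (π v).1 = true), ((nb G v).card : ℝ)) -
          (∑ v ∈ univ.filter (fun v => v ∉ U ∧ (π v).1 = false), ((nb G v).card : ℝ)) -
          (p : ℝ) * d| ≤ δ * d ∧
        (∀ P Q : Finset (Bool × T), P.card = Q.card → P.Nonempty →
          FI G ((P.card : ℝ) * d / (2 * Fintype.card T)) (γ / 100) (cls U π P) (cls U π Q)) ∧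
        ∀ v (P : Finset (Bool × T)), P.Nonempty →
          γ / 2 * ((P.card : ℝ) * d / (2 * Fintype.card T)) ^ 2 ≤
            ((mis G (nb G v ∩ cls U π P)).card : ℝ)

/-! ## The context -/

/-- the atoms: (side, cell, subcell) -/
abbrev Atom (m r : ℕ) := Bool × ZMod (2 * m + 1) × ZMod (2 * r + 1)

/-- All data fixed at the beginning. `G` is the graph without the edges of `H`, `U` the set of the
vertices of `H`, `F u` the two colours forbidden at `u ∈ U` (own colour, colour of the edge of `H`).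
Colours: `Ga` (the colour `b` is determined by `gi b`, `gj b`, `gs b`, `gk b < u`), `Pe`, the rest.
`c` is the final colouring of the vertices outside `U`; the subcell `s` uses the palette `Pal s`,
which is contained in `Ga` (`s ∈ GS`) or disjoint from `Ga ∪ Pe` (`s ∉ GS`). -/
structure Ctx (m r : ℕ) {V : Type u} [Fintype V] (k d : ℕ) (G : SimpleGraph V) (U : Finset V)
    (F : V → Finset (Fin k)) where
  g : ℝ
  dl : ℝ
  u : ℕ
  w : ℕ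
  N : ℕ
  p : ℕ
  side : V → Bool
  cell : V → ZMod (2 * m + 1)
  sub : V → ZMod (2 * r + 1)
  gi : Fin k → ZMod (2 * m + 1)
  gj : Fin k → ZMod (2 * m + 1)
  gs : Fin k → ZMod (2 * r + 1)
  gk : Fin k → ℕ
  Ga : Finset (Fin k)
  Pe : Finset (Fin k)
  ty : Fin k → ZMod (2 * m + 1) × ZMod (2 * m + 1) × ZMod (2 * m + 1) × ZMod (2 * m + 1)
  GS : Finset (ZMod (2 * r + 1))
  Pal : ZMod (2 * r + 1) → Finset (Fin k)
  hm : ℕ → Option (ZMod (2 * r + 1))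
  c : V → Fin k
  -- constants
  g0 : 0 < g
  g1 : g ≤ 1 / 100
  mbig : 10 ^ 5 ≤ g ^ 2 * (2 * m + 1)
  rbig : 100 * (2 * (m : ℝ) + 1) ^ 7 ≤ 2 * r + 1
  dl0 : 0 < dl
  dlsm : dl * (10 ^ 6 * (2 * (m : ℝ) + 1) ^ 12 * (2 * (r : ℝ) + 1) ^ 2) ≤ g ^ 2
  dbig : 10 ^ 6 * (2 * (m : ℝ) + 1) ^ 20 * (2 * (r : ℝ) + 1) ^ 3 ≤ dl * d
  n2 : (2 + 10 * g) * d ≤ (Fintype.card V : ℝ)
  kd : d + 2 ≤ k
  ulo : (1 - 1 / (2 * (m : ℝ) + 1) ^ 7) * d ≤
    2 * (2 * (m : ℝ) + 1) * (2 * (r : ℝ) + 1) * (2 * m * u)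
  uhi : 2 * (2 * (m : ℝ) + 1) * (2 * (r : ℝ) + 1) * (2 * m * u) ≤
    (1 - 1 / (2 * (2 * (m : ℝ) + 1) ^ 7)) * d
  -- colours
  disj : Disjoint Ga Pe
  gex : ∀ i j s (l : ℕ), l < u → ∃ b ∈ Ga, gi b = i ∧ gj b = j ∧ gs b = s ∧ gk b = l
  glt : ∀ b ∈ Ga, gk b < u
  ginj : ∀ b ∈ Ga, ∀ b' ∈ Ga, gi b = gi b' → gj b = gj b' → gs b = gs b' → gk b = gk b' → b = b'
  Pem : ∀ τ, 4 * (d : ℝ) / (2 * m + 1) ^ 7 + 2 ≤ ((Pe.filter (fun b => ty b = τ)).card : ℝ)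
  Pecard : (Pe.card : ℝ) ≤ 5 * d / (2 * m + 1) ^ 3
  -- palettes
  GScard : GS.card = r + 1
  Pald : ∀ s s', s ≠ s' → Disjoint (Pal s) (Pal s')
  PalG : ∀ s ∈ GS, Pal s ⊆ Ga
  PalL : ∀ s, s ∉ GS → Disjoint (Pal s) (Ga ∪ Pe)
  Palh : ∀ b ∈ Ga, ∀ s, b ∈ Pal s ↔ hm (gk b) = some s
  hmw : ∀ s, ((range u).filter (fun l => hm l = some s)).card ≤ w
  wub : (2 * (m : ℝ) + 1) ^ 2 * (2 * (r : ℝ) + 1) ^ 2 * w ≤ 3 / 2 * d
  -- the vertex colouring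
  cP : ∀ v, v ∉ U → c v ∈ Pal (sub v)
  cadj : ∀ v w, v ∉ U → w ∉ U → G.Adj v w → c v ≠ c w
  cF : ∀ v, v ∉ U → ∀ u ∈ U, G.Adj v u → c v ∉ F u
  -- the set U
  F2 : ∀ u ∈ U, (F u).card ≤ 2
  F0 : ∀ v, v ∉ U → F v = ∅
  UU : ∀ u ∈ U, ∀ v ∈ U, ¬ G.Adj u v
  U2 : ∀ v, (univ.filter (fun u => u ∈ U ∧ G.Adj v u)).card ≤ 2
  U1 : ∀ v s, (univ.filter (fun u => u ∈ U ∧ G.Adj v u ∧ side u = s)).card ≤ 1
  Ueq : (univ.filter (fun u => u ∈ U ∧ side u = true)).card =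
    (univ.filter (fun u => u ∈ U ∧ side u = false)).card
  Ucard : (U.card : ℝ) * d ≤ 3 * Fintype.card V
  -- degrees
  deg : ∀ v, (nb G v).card ≤ d
  degU : ∀ u ∈ U, (nb G u).card + (F u).card ≤ d + 1
  degat : ∀ v (a : Atom m r),
    |((nb G v ∩ cls U (fun v => (side v, cell v, sub v)) {a}).card : ℝ) -
      (d : ℝ) / (2 * (2 * m + 1) * (2 * r + 1))| ≤ dl * d
  degsum : |(∑ v ∈ sd side true, ((nb G v).card : ℝ)) - (∑ v ∈ sd side false,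
    ((nb G v).card : ℝ)) - (p : ℝ) * d| ≤ dl * Fintype.card V
  -- the atoms
  atN : ∀ a : Atom m r, N ≤ (cls U (fun v => (side v, cell v, sub v)) {a}).card ∧
    (cls U (fun v => (side v, cell v, sub v)) {a}).card ≤ N + 1
  atle : ∀ i s, (cls U (fun v => (side v, cell v, sub v)) {((false, i, s) : Atom m r)}).card ≤
    (cls U (fun v => (side v, cell v, sub v)) {((true, i, s) : Atom m r)}).card
  p1 : p ≤ 1
  sides : (sd side true).card = (sd side false).card + p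
  fi : ∀ P Q : Finset (Atom m r), P.card = Q.card → P.Nonempty →
    FI G ((P.card : ℝ) * d / (2 * (2 * m + 1) * (2 * r + 1))) g
      (cls U (fun v => (side v, cell v, sub v)) P) (cls U (fun v => (side v, cell v, sub v)) Q)

namespace Ctx
variable {m r : ℕ} {V : Type u} [Fintype V] {k d : ℕ} {G : SimpleGraph V} {U : Finset V}
  {F : V → Finset (Fin k)} (X : Ctx m r k d G U F)

/-- the atom of a vertex -/
def at' (v : V) : Atom m r := (X.side v, X.cell v, X.sub v)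

/-- the atom `a` is idle for the colours of the group of `b` -/
def idA (b : Fin k) (a : Atom m r) : Prop :=
  (a.1 = true → X.gi b = a.2.1) ∧ (a.1 = false → X.gj b = a.2.1)

/-- `v` is idle for the colours of the group of `b` -/
def idl (b : Fin k) (v : V) : Prop := v ∉ U ∧ X.idA b (X.at' v)

/-- the graph of the inside edges -/
def R : SimpleGraph V := ins G X.side

/-- the subcells in which no nonidle vertex has an inside edge of colour `b` -/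
noncomputable def Fs (b : Fin k) : Finset (ZMod (2 * r + 1)) :=
  univ.filter (fun s => b ∈ X.Pal s ∨ b ∈ X.Pal (2 * X.gs b - s) ∨ (X.gi b = X.gj b ∧ s = X.gs b))

/-- the subcells in which inside edges of colour `b` may be dropped -/
noncomputable def Ds (b : Fin k) : Finset (ZMod (2 * r + 1)) :=
  {X.gs b + 1, X.gs b - 1, X.gs b + 2, X.gs b - 2, X.gs b + 3, X.gs b - 3}

end Ctx

/-! ## The inside edges -/

section inside
variable {m r : ℕ} {V : Type u} [Fintype V] {k d : ℕ} {G : SimpleGraph V} {U : Finset V}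
  {F : V → Finset (Fin k)}

/-- the structured inside edges: `E b v w` means that the edge `vw` has the colour `b` -/
structure Str (X : Ctx m r k d G U F) where
  E : Fin k → V → V → Prop
  sym : ∀ b v w, E b v w → E b w v
  adj : ∀ b v w, E b v w → X.R.Adj v w ∧ b ∈ X.Ga ∧ v ∉ U ∧ ¬ X.idl b v
  rho : ∀ b v w, E b v w → X.sub w = 2 * X.gs b - X.sub v
  inj : ∀ b v w w', E b v w → E b v w' → w = w'
  uniq : ∀ b b' v w, E b v w → E b' v w → b = b'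
  part : ∀ b ∈ X.Ga, ∀ a : Atom m r, ¬ X.idA b a → ¬ (X.gi b = X.gj b ∧ a.2.2 = X.gs b) →
    ((cls U X.at' {a}).filter (fun v => ∀ w, ¬ E b v w)).card ≤ 1
  few : ∀ v, v ∉ U → (X.Ga.filter (fun b => ¬ X.idl b v ∧
    ¬ (X.gi b = X.gj b ∧ X.sub v = X.gs b) ∧ ∀ w, ¬ E b v w)).card ≤ (2 * m + 1) * (2 * r + 1)

/-- the colours of the inside edges at `U` -/
structure UC (X : Ctx m r k d G U F) where
  t : V → V → Fin k
  tG : ∀ u ∈ U, ∀ w, X.R.Adj u w → t u w ∈ X.Ga ∧ X.idl (t u w) w ∧ t u w ∉ F u ∧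
    t u w ∉ X.Pal (X.sub w)
  inj : ∀ u ∈ U, Set.InjOn (t u) (nb X.R u : Set V)
  loc : ∀ y, ∀ b ∈ X.Ga, (((nb G y).filter (fun w => ∃ u ∈ U, X.R.Adj u w ∧ t u w = b)).card : ℝ) ≤
    d / (2 * m + 1) ^ 3
  cnt : ∀ u ∈ U, ∀ j, ((X.Ga.filter (fun b => (X.side u = true → X.gj b = j) ∧
    (X.side u = false → X.gi b = j) ∧ ∀ w, X.R.Adj u w → t u w ≠ b)).card : ℝ) ≤
      d / (2 * m + 1) ^ 2

/-- a partial colouring of the inside edges by colours of `Ga`; `Bs b` = subcells which may contain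
many uncovered vertices, `lam` = bound for the number of missing colours -/
structure Col (X : Ctx m r k d G U F) (Bs : Fin k → Finset (ZMod (2 * r + 1))) (lam : ℝ) where
  E : Fin k → V → V → Prop
  sym : ∀ b v w, E b v w → E b w v
  adj : ∀ b v w, E b v w → X.R.Adj v w ∧ b ∈ X.Ga
  inj : ∀ b v w w', E b v w → E b v w' → w = w'
  uniq : ∀ b b' v w, E b v w → E b' v w → b = b'
  EF : ∀ b v w, E b v w → b ∉ F v
  Ec : ∀ b v w, v ∉ U → E b v w → X.c v ≠ b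
  EU : ∀ v ∈ U, ∀ w, X.R.Adj v w → ∃ b, E b v w
  Ei : ∀ b v w, X.idl b v → E b v w → w ∈ U
  En : ∀ b v w, v ∉ U → ¬ X.idl b v → E b v w → w ∉ U
  rho : ∀ b v w, v ∉ U → w ∉ U → E b v w → X.sub w = 2 * X.gs b - X.sub v
  iloc : ∀ b ∈ X.Ga, ∀ y,
    (((nb G y).filter (fun v => X.idl b v ∧ ∃ w, E b v w)).card : ℝ) ≤ d / (2 * m + 1) ^ 3
  ucnt : ∀ u ∈ U, ∀ j, ((X.Ga.filter (fun b => (X.side u = true → X.gj b = j) ∧
    (X.side u = false → X.gi b = j) ∧ ∀ w, ¬ E b u w)).card : ℝ) ≤ d / (2 * m + 1) ^ 2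
  part : ∀ b ∈ X.Ga, ∀ a : Atom m r, ¬ X.idA b a → a.2.2 ∉ Bs b →
    ((cls U X.at' {a}).filter (fun v => ∀ w, ¬ E b v w)).card ≤ 1
  hcnt : ∀ v, v ∉ U → ((X.Ga.filter (fun b => ¬ X.idl b v ∧ ∀ w, ¬ E b v w)).card : ℝ) ≤
    lam * d / (2 * r + 1)

/-- imbalance of the set of the vertices which still need the colour `b` -/
noncomputable def imbC (X : Ctx m r k d G U F) {Bs : Fin k → Finset (ZMod (2 * r + 1))} {lam : ℝ}
    (P : Col X Bs lam) (b : Fin k) : ℤ :=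
  imb X.side (univ.filter (fun v => ¬ (v ∉ U ∧ X.c v = b) ∧ b ∉ F v ∧ ∀ w, ¬ P.E b v w))

/-- The colouring of the inside edges. -/
structure Ins (X : Ctx m r k d G U F) where
  t : V → V → Fin k
  pec : PEC X.R t
  tF : ∀ v w, X.R.Adj v w → t v w ∉ F v
  tc : ∀ v w, v ∉ U → X.R.Adj v w → t v w ≠ X.c v
  tcol : ∀ v w, X.R.Adj v w → t v w ∈ X.Ga ∨ (t v w ∈ X.Pe ∧ v ∉ U ∧
    (X.side v = true → X.cell v = (X.ty (t v w)).1 ∨ X.cell v = (X.ty (t v w)).2.1) ∧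
    (X.side v = false → X.cell v = (X.ty (t v w)).2.2.1 ∨ X.cell v = (X.ty (t v w)).2.2.2))
  icov : ∀ v w, X.R.Adj v w → t v w ∈ X.Ga → X.idl (t v w) v → w ∈ U
  iloc : ∀ b ∈ X.Ga, ∀ y,
    (((nb G y).filter (fun v => X.idl b v ∧ v ∈ cov X.R t b)).card : ℝ) ≤ d / (2 * m + 1) ^ 3
  hloc : ∀ b ∈ X.Ga, ∀ y s, (((nb G y).filter (fun v => v ∉ U ∧ X.side v = s ∧ ¬ X.idl b v ∧
    v ∉ cov X.R t b)).card : ℝ) ≤ 8 * d / (2 * r + 1)
  hcnt : ∀ v, v ∉ U → ((X.Ga.filter (fun b => ¬ X.idl b v ∧ v ∉ cov X.R t b)).card : ℝ) ≤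
    8 * d / (2 * r + 1)
  ucnt : ∀ u ∈ U, ∀ j, ((X.Ga.filter (fun b => (X.side u = true → X.gj b = j) ∧
    (X.side u = false → X.gi b = j) ∧ u ∉ cov X.R t b)).card : ℝ) ≤ d / (2 * m + 1) ^ 2
  imbp : ∀ i j, (∑ b ∈ X.Ga.filter (fun b => X.gi b = i ∧ X.gj b = j),
    max (imb X.side (W0 X.R U F X.c t b)) 0) ≤ (2 * r + 1) * X.u + 1
  imbn : ∀ i j, (∑ b ∈ X.Ga.filter (fun b => X.gi b = i ∧ X.gj b = j),
    max (-(imb X.side (W0 X.R U F X.c t b))) 0) ≤ (2 * r + 1) * X.u + 1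
  imb2 : ∀ b ∈ X.Ga, |imb X.side (W0 X.R U F X.c t b)| ≤ 2
  imbP : (∑ b ∈ X.Pe, |((imb X.side (W0 X.R U F X.c t b) : ℤ) : ℝ)|) ≤
    X.g / (100 * (2 * m + 1)) * Fintype.card V

end inside

/-- STR (from REGX): the structured inside edges. -/
def Stmt_STR : Prop :=
  ∀ {m r : ℕ} {V : Type u} [Fintype V] {k d : ℕ} {G : SimpleGraph V} {U : Finset V}
    {F : V → Finset (Fin k)} (X : Ctx m r k d G U F), Nonempty (Str X)

/-- UCX (from UCOL): the inside edges at `U`. -/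
def Stmt_UCX : Prop :=
  ∀ m r : ℕ, ∃ d0 : ℕ, ∀ {V : Type u} [Fintype V] {k d : ℕ} {G : SimpleGraph V} {U : Finset V}
    {F : V → Finset (Fin k)} (X : Ctx m r k d G U F), d0 ≤ d → Nonempty (UC X)

/-- PRE: the partial colouring from the structured edges and the edges at `U`. -/
def Stmt_PRE : Prop :=
  ∀ {m r : ℕ} {V : Type u} [Fintype V] {k d : ℕ} {G : SimpleGraph V} {U : Finset V}
    {F : V → Finset (Fin k)} (X : Ctx m r k d G U F), Str X → UC X →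
    ∃ P : Col X X.Fs 3, ∀ b ∈ X.Ga, ∀ v w, v ∉ U → ¬ X.idl b v → X.sub v ∈ X.Fs b → ¬ P.E b v w

/-- CUT: dropping edges such that the imbalances are as prescribed. -/
def Stmt_CUT : Prop :=
  ∀ {m r : ℕ} {V : Type u} [Fintype V] {k d : ℕ} {G : SimpleGraph V} {U : Finset V}
    {F : V → Finset (Fin k)} (X : Ctx m r k d G U F) (P : Col X X.Fs 3) (e : Fin k → ℤ),
    (∀ b ∈ X.Ga, ∀ v w, v ∉ U → ¬ X.idl b v → X.sub v ∈ X.Fs b → ¬ P.E b v w) →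
    (∀ b ∈ X.Ga, |e b| ≤ 2 ∧ (e b - imbC X P b) % 2 = 0) →
    ∃ P' : Col X (fun b => X.Fs b ∪ X.Ds b) 8, ∀ b ∈ X.Ga, imbC X P' b = e b

/-- INS (from TGT, POOLX, CUT): the inside colouring. -/
def Stmt_INS : Prop :=
  ∀ {m r : ℕ} {V : Type u} [Fintype V] {k d : ℕ} {G : SimpleGraph V} {U : Finset V}
    {F : V → Finset (Fin k)} (X : Ctx m r k d G U F) (P : Col X X.Fs 3),
    (∀ b ∈ X.Ga, ∀ v w, v ∉ U → ¬ X.idl b v → X.sub v ∈ X.Fs b → ¬ P.E b v w) → Nonempty (Ins X)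

/-! ## The cross edges -/

/-- the vertices to be covered by the reference matching number `j` -/
noncomputable def Wq {m r : ℕ} {V : Type u} [Fintype V] {k d : ℕ} {G : SimpleGraph V}
    {U : Finset V} {F : V → Finset (Fin k)} (X : Ctx m r k d G U F) (j : Fin 4) : Finset V :=
  univ.filter (fun v => v ∉ ZQ X.side F (univ \ (X.Ga ∪ X.Pe)) j ∧
    (j.val % 2 = 0 → v ∈ U ∨ X.c v ∈ X.Ga))

/-- the cross matchings: one for every colour of `Ga ∪ Pe` and four reference matchings; `Z` are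
the missed vertices -/
structure Mats {m r : ℕ} {V : Type u} [Fintype V] {k d : ℕ} {G : SimpleGraph V} {U : Finset V}
    {F : V → Finset (Fin k)} (X : Ctx m r k d G U F) (I : Ins X) where
  Z : Fin k ⊕ Fin 4 → Finset V
  M : Fin k ⊕ Fin 4 → Finset (V × V)
  ZU : ∀ a, Disjoint (Z a) U
  ZG : ∀ a, ∀ v ∈ Z a, X.c v ∈ X.Ga
  Zd : ∀ a b, a ≠ b → Disjoint (Z a) (Z b)
  Md : ∀ a b, a ≠ b → Disjoint (M a) (M b)
  Me : ∀ a, ∀ e ∈ M a, X.side e.1 = true ∧ X.side e.2 = false ∧ G.Adj e.1 e.2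
  Mm : ∀ a, Lin.IsM (M a)
  M0 : ∀ b, b ∉ X.Ga ∪ X.Pe → M (Sum.inl b) = ∅
  Mc : ∀ b ∈ X.Ga ∪ X.Pe, ∀ v, (∃ e ∈ M (Sum.inl b), e.1 = v ∨ e.2 = v) ↔
    v ∈ W0 X.R U F X.c I.t b ∧ v ∉ Z (Sum.inl b)
  Mq : ∀ j : Fin 4, ∀ v, (∃ e ∈ M (Sum.inr j), e.1 = v ∨ e.2 = v) ↔
    v ∈ Wq X j ∧ v ∉ Z (Sum.inr j)

/-- TASK (from SPLIT, SEQ, ZSEL of MP_db9399_qr, HALLX): the matchings exist. -/
def Stmt_TASK : Prop :=
  ∀ {m r : ℕ} {V : Type u} [Fintype V] {k d : ℕ} {G : SimpleGraph V} {U : Finset V}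
    {F : V → Finset (Fin k)} (X : Ctx m r k d G U F) (I : Ins X), Nonempty (Mats X I)

/-- GF (from GAL of MP_db9399_lin): the last part by Galvin's theorem. -/
def Stmt_GF : Prop :=
  ∀ {m r : ℕ} {V : Type u} [Fintype V] {k d : ℕ} {G : SimpleGraph V} {U : Finset V}
    {F : V → Finset (Fin k)} (X : Ctx m r k d G U F) (I : Ins X), Mats X I →
    ∃ t : V → V → Fin k, Good G U F X.c t

/-! ## Assembly -/

/-- VCX (from SPV): the colours of the ordinary vertices. -/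
def Stmt_VCX : Prop :=
  ∀ θ : ℝ, 0 < θ → ∃ (κ : ℝ) (Δ0 : ℕ), 0 < κ ∧ κ ≤ 1 ∧
    ∀ {V : Type u} [Fintype V] (G : SimpleGraph V) (U : Finset V) (Δ k : ℕ)
      (F : V → Finset (Fin k)) (S : Type) (sub : V → S) (Pal : S → Finset (Fin k)), Δ0 ≤ Δ →
      (∀ v s, ((nb G v).filter (fun w => w ∉ U ∧ sub w = s)).card ≤ Δ) →
      (∀ v s, θ * (Δ : ℝ) ^ 2 ≤
        ((mis G ((nb G v).filter (fun w => w ∉ U ∧ sub w = s))).card : ℝ)) →
      (∀ u ∈ U, (F u).card ≤ 2) → (∀ v, (univ.filter (fun u => u ∈ U ∧ G.Adj v u)).card ≤ 2) →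
      (∀ s, (1 - κ) * Δ ≤ ((Pal s).card : ℝ)) → (∀ s s', s ≠ s' → Disjoint (Pal s) (Pal s')) →
      ∃ c : V → Fin k, (∀ v, v ∉ U → c v ∈ Pal (sub v)) ∧
        (∀ v w, v ∉ U → w ∉ U → G.Adj v w → c v ≠ c w) ∧
        ∀ v, v ∉ U → ∀ u ∈ U, G.Adj v u → c v ∉ F u

/-- CTX (from PARTXW, VCX): the context exists. -/
def Stmt_CTX : Prop :=
  ∀ γ : ℝ, 0 < γ → γ ≤ 1 → ∃ m r : ℕ, ∀ d1 : ℕ, ∃ (ε : ℝ) (d0 : ℕ), 0 < ε ∧ d1 ≤ d0 ∧
    ∀ {V : Type u} [Fintype V] (k d : ℕ) (G G0 : SimpleGraph V) (U : Finset V)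
      (F : V → Finset (Fin k)) (τ : V → Bool), d0 ≤ d → (2 + γ) * d ≤ (Fintype.card V : ℝ) →
      d + 2 ≤ k → NR G d ε → BE G d γ → G0 ≤ G →
      (∀ v, (nb G v).card ≤ (nb G0 v).card + 1) → (∀ v, v ∉ U → nb G0 v = nb G v) →
      (∀ u ∈ U, (F u).card ≤ 2) → (∀ v, v ∉ U → F v = ∅) → (∀ u ∈ U, ∀ v ∈ U, ¬ G0.Adj u v) →
      (∀ v, (univ.filter (fun u => u ∈ U ∧ G0.Adj v u)).card ≤ 2) →
      (∀ v s, (univ.filter (fun u => u ∈ U ∧ G0.Adj v u ∧ τ u = s)).card ≤ 1) →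
      ((univ.filter (fun u => u ∈ U ∧ τ u = true)).card =
        (univ.filter (fun u => u ∈ U ∧ τ u = false)).card) →
      (∀ u ∈ U, (nb G0 u).card + (F u).card ≤ d + 1) → Nonempty (Ctx m r k d G0 U F)

/-- THE THEOREM. -/
def Stmt_MAIN : Prop :=
  ∀ γ : ℝ, 0 < γ → ∃ (ε : ℝ) (d0 : ℕ), 0 < ε ∧ ∀ (V : Type u) [Fintype V] (G : SimpleGraph V)
    [DecidableRel G.Adj] (d k : ℕ), d0 ≤ d → (2 + γ) * d ≤ (Fintype.card V : ℝ) → d + 2 ≤ k →
    (∀ v, G.degree v ≤ d ∧ (1 - ε) * d ≤ (G.degree v : ℝ)) →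
    (∀ A B : Finset V, B.card ≤ A.card → 2 * A.card ≤ Fintype.card V →
      ((G.interedges A B).card : ℝ) ≤ (1 - γ) * d * A.card) →
    ∀ H : G.Subgraph, IsDistThreeMatching H → EveryTotalColoringExtends H (Fin k)

/-- FINX: the theorem from the blocks. -/
def Stmt_FINX : Prop := Stmt_CTX.{u} → Stmt_STR.{u} → Stmt_UCX.{u} → Stmt_PRE.{u} →
  Stmt_INS.{u} → Stmt_TASK.{u} → Stmt_GF.{u} → Stmt_MAIN.{u}

end Pool.Agent.Work.MP_db9399_exp
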