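import Pool.Agent.Work.MP_db9399_px_helper35.Final
import Pool.Agent.Work.MP_db9399_exp_helper6.PARTXW
import Pool.Agent.Work.MP_db9399_exp_helper99.VCX
import Pool.Agent.Work.MP_db9399_exp_helper99.TGT
import Pool.Agent.Work.MP_db9399_exp_helper23.CTX
import Pool.Agent.Work.MP_db9399_exp_helper31.REGX
import Pool.Agent.Work.MP_db9399_exp_helper46.STR
import Pool.Agent.Work.MP_db9399_exp_helper46.INS
import Pool.Agent.Work.MP_db9399_exp_helper46.ZB
import Pool.Agent.Work.MP_db9399_exp_helper59.UCX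
import Pool.Agent.Work.MP_db9399_exp_helper59.HALLX
import Pool.Agent.Work.MP_db9399_exp_helper83.PRE
import Pool.Agent.Work.MP_db9399_exp_helper83.FINX
import Pool.Agent.Work.MP_db9399_exp_helper94.POOLX
import Pool.Agent.Work.MP_db9399_exp_helper75.TASK
import Pool.Agent.Work.MP_db9399_exp_helper38.CUT
import Pool.Agent.Work.MP_db9399_exp_helper38.GF
import Pool.Agent.Work.MP_db9399_qr.SEQ
import Pool.Agent.Work.MP_db9399_qr.ZSEL
import Pool.Agent.Work.MP_db9399_qr.SPLIT

/-! # MP_db9399: THEOREM EXP, assembly (helper38) -/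

set_option autoImplicit false

namespace Pool.Agent.Work.MP_db9399_exp

universe u

theorem stmt_MAIN : Stmt_MAIN.{u} :=
  helper83.stmt_FINX.{u}
    (helper23.stmt_CTX.{u}
      (helper6.stmt_PARTXW.{u} (Pool.Agent.Work.MP_db9399_px.helper23.stmt_PX1
        Pool.Agent.Work.MP_db9399_px.helper99.stmt_FN
        (Pool.Agent.Work.MP_db9399_px.helper35.stmt_TR
          Pool.Agent.Work.MP_db9399_px.helper83.stmt_SAMP
          Pool.Agent.Work.MP_db9399_px.helper89.stmt_WALK)
        Pool.Agent.Work.MP_db9399_px.llx_holds))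
      helper99.stmt_VCX.{u})
    (helper46.stmt_STR_of.{u} helper31.stmt_REGX.{u})
    helper59.stmt_UCX.{u}
    helper83.stmt_PRE.{u}
    (helper46.stmt_INS_of.{u} helper38.stmt_CUT.{u} helper99.stmt_TGT helper94.stmt_POOLX.{u})
    (helper75.stmt_TASK.{u} Pool.Agent.Work.MP_db9399_qr.stmt_SPLIT.{u} helper59.stmt_HALLX.{u}
      Pool.Agent.Work.MP_db9399_qr.stmt_SEQ.{u} Pool.Agent.Work.MP_db9399_qr.stmt_ZSEL.{u}
      helper46.stmt_ZB.{u})
    helper38.stmt_GF.{u}

end Pool.Agent.Work.MP_db9399_exp
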